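import Pool.Agent.Helper31.TN.M_G4

/-!
# Project TN: module G5 (orthogonality)
-/

set_option autoImplicit false

namespace Pool.Agent.Helper31.TN

open Pool.Agent.Helper97.TN Pool.Agent.Helper95.TT Pool.Agent.Helper24.TF
open scoped Classical

noncomputable section

/-- an element which acts trivially on `X` and interchanges two points of `Y` -/
theorem exists_two_cycle {G X Y : Type} [Group G] [Fintype Y] [MulAction G X] [MulAction G Y]
    (hY : Nat.card Y = 2 ∨ 4 ≤ Nat.card Y)
    (hsY : ∀ π : Equiv.Perm Y, ∃ g : G, ∀ y, g • y = π y) (g₀ : G) (h0 : ∀ x : X, g₀ • x = x)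
    (h1 : ¬ ∀ y : Y, g₀ • y = y) :
    ∃ (m : G) (y z : Y), (∀ x : X, m • x = x) ∧ y ≠ z ∧ m • y = z ∧ m • z = y := by
  push Not at h1
  obtain ⟨y, hy⟩ := h1
  rw [Nat.card_eq_fintype_card] at hY
  rcases hY with hY | hY
  · refine ⟨g₀, y, g₀ • y, h0, Ne.symm hy, rfl, ?_⟩
    by_contra hne
    have h2 : g₀ • g₀ • y ≠ g₀ • y := fun h => hy (MulAction.injective g₀ h)
    have h3 : ({y, g₀ • y, g₀ • g₀ • y} : Finset Y).card = 3 :=
      Finset.card_eq_three.mpr ⟨y, g₀ • y, g₀ • g₀ • y, Ne.symm hy, Ne.symm hne, Ne.symm h2, rfl⟩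
    have h4 := Finset.card_le_univ ({y, g₀ • y, g₀ • g₀ • y} : Finset Y)
    omega
  · -- choose z
    have hz : ∃ z : Y, z ∉ ({y, g₀ • y, g₀⁻¹ • y} : Finset Y) := by
      by_contra hcon
      push Not at hcon
      have h4 : (Finset.univ : Finset Y) ⊆ {y, g₀ • y, g₀⁻¹ • y} := fun z _ => hcon z
      have h5 := Finset.card_le_card h4
      have h6 : ({y, g₀ • y, g₀⁻¹ • y} : Finset Y).card ≤ 3 := Finset.card_le_three
      rw [Finset.card_univ] at h5
      omega
    obtain ⟨z, hz⟩ := hz
    simp only [Finset.mem_insert, Finset.mem_singleton, not_or] at hz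
    obtain ⟨hzy, hz1, hz2⟩ := hz
    have hz3 : g₀ • z ≠ y := by
      intro h
      apply hz2
      rw [← h, inv_smul_smul]
    obtain ⟨t, ht⟩ := hsY (Equiv.swap y z)
    have ty : t • y = z := by rw [ht, Equiv.swap_apply_left]
    have tz : t • z = y := by rw [ht, Equiv.swap_apply_right]
    have tw : ∀ w, w ≠ y → w ≠ z → t • w = w := by
      intro w h1 h2
      rw [ht, Equiv.swap_apply_of_ne_of_ne h1 h2]
    have tiy : t⁻¹ • y = z := by rw [inv_smul_eq_iff, tz]
    have tiz : t⁻¹ • z = y := by rw [inv_smul_eq_iff, ty]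
    have tiw : ∀ w, w ≠ y → w ≠ z → t⁻¹ • w = w := by
      intro w h1 h2
      rw [inv_smul_eq_iff, tw w h1 h2]
    have h0i : ∀ x : X, g₀⁻¹ • x = x := by
      intro x
      rw [inv_smul_eq_iff, h0]
    have hρX : ∀ x : X, (g₀ * t * g₀⁻¹ * t⁻¹) • x = x := by
      intro x
      rw [mul_smul, mul_smul, mul_smul, h0i, smul_inv_smul, h0]
    by_cases hc : g₀ • z = z
    · -- 3-cycle
      have hw : ∃ w : Y, w ∉ ({y, g₀ • y, z} : Finset Y) := by
        by_contra hcon
        push Not at hcon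
        have h4 : (Finset.univ : Finset Y) ⊆ {y, g₀ • y, z} := fun w _ => hcon w
        have h5 := Finset.card_le_card h4
        have h6 : ({y, g₀ • y, z} : Finset Y).card ≤ 3 := Finset.card_le_three
        rw [Finset.card_univ] at h5
        omega
      obtain ⟨w, hw⟩ := hw
      simp only [Finset.mem_insert, Finset.mem_singleton, not_or] at hw
      obtain ⟨hwy, hw1, hwz⟩ := hw
      have gz : g₀⁻¹ • z = z := by rw [inv_smul_eq_iff, hc]
      obtain ⟨ρ, hρ⟩ : ∃ ρ : G, ρ = g₀ * t * g₀⁻¹ * t⁻¹ := ⟨_, rfl⟩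
      have ρX : ∀ x : X, ρ • x = x := by rw [hρ]; exact hρX
      have r1 : ρ • y = g₀ • y := by
        rw [hρ, mul_smul, mul_smul, mul_smul, tiy, gz, tz]
      have r2 : ρ • g₀ • y = z := by
        rw [hρ, mul_smul, mul_smul, mul_smul, tiw (g₀ • y) hy (Ne.symm hz1), inv_smul_smul, ty, hc]
      have r3 : ρ • z = y := by
        rw [hρ, mul_smul, mul_smul, mul_smul, tiz, tw (g₀⁻¹ • y), smul_inv_smul]
        · intro h
          rw [inv_smul_eq_iff] at h
          exact hy h.symm
        · intro h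
          rw [inv_smul_eq_iff, hc] at h
          exact hzy h.symm
      have r4 : ρ • w = w := by
        rw [hρ, mul_smul, mul_smul, mul_smul, tiw w hwy hwz, tw (g₀⁻¹ • w), smul_inv_smul]
        · intro h
          rw [inv_smul_eq_iff] at h
          exact hw1 h
        · intro h
          rw [inv_smul_eq_iff, hc] at h
          exact hwz h
      obtain ⟨k, hk⟩ := hsY (Equiv.swap z w)
      have ky : k • y = y := by
        rw [hk, Equiv.swap_apply_of_ne_of_ne (Ne.symm hzy) (Ne.symm hwy)]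
      have kz : k • z = w := by rw [hk, Equiv.swap_apply_left]
      have kw : k • w = z := by rw [hk, Equiv.swap_apply_right]
      have kg : k • g₀ • y = g₀ • y := by
        rw [hk, Equiv.swap_apply_of_ne_of_ne (Ne.symm hz1) (Ne.symm hw1)]
      have kiy : k⁻¹ • y = y := by rw [inv_smul_eq_iff, ky]
      have kiz : k⁻¹ • z = w := by rw [inv_smul_eq_iff, kw]
      refine ⟨ρ * (k * ρ * k⁻¹), y, z, ?_, Ne.symm hzy, ?_, ?_⟩
      · intro x
        rw [mul_smul, mul_smul, mul_smul, ρX (k⁻¹ • x), smul_inv_smul, ρX]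
      · rw [mul_smul, mul_smul, mul_smul, kiy, r1, kg, r2]
      · rw [mul_smul, mul_smul, mul_smul, kiz, r4, kw, r3]
    · refine ⟨g₀ * t * g₀⁻¹ * t⁻¹, y, z, hρX, Ne.symm hzy, ?_, ?_⟩
      · rw [mul_smul, mul_smul, mul_smul, tiy, tw (g₀⁻¹ • z), smul_inv_smul]
        · intro h
          rw [inv_smul_eq_iff] at h
          exact hz1 h
        · intro h
          rw [inv_smul_eq_iff] at h
          exact hc h.symm
      · rw [mul_smul, mul_smul, mul_smul, tiz, tw (g₀⁻¹ • y), smul_inv_smul]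
        · intro h
          rw [inv_smul_eq_iff] at h
          exact hy h.symm
        · intro h
          rw [inv_smul_eq_iff] at h
          exact hz3 h.symm

/-- the claim, for all pairs of points -/
theorem exists_swap {G X Y : Type} [Group G] [Fintype Y] [MulAction G X] [MulAction G Y]
    (hY : Nat.card Y = 2 ∨ 4 ≤ Nat.card Y)
    (hsY : ∀ π : Equiv.Perm Y, ∃ g : G, ∀ y, g • y = π y) (g₀ : G) (h0 : ∀ x : X, g₀ • x = x)
    (h1 : ¬ ∀ y : Y, g₀ • y = y) (c d : Y) (hcd : c ≠ d) :
    ∃ h : G, (∀ x : X, h • x = x) ∧ h • c = d ∧ h • d = c := by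
  obtain ⟨m, y, z, hm, hyz, h2, h3⟩ := exists_two_cycle hY hsY g₀ h0 h1
  obtain ⟨π, hp1, hp2⟩ := exists_perm_two hyz hcd
  obtain ⟨s, hs⟩ := hsY π
  have sc : s⁻¹ • c = y := by rw [inv_smul_eq_iff, hs, hp1]
  have sd : s⁻¹ • d = z := by rw [inv_smul_eq_iff, hs, hp2]
  refine ⟨s * m * s⁻¹, ?_, ?_, ?_⟩
  · intro x
    rw [mul_smul, mul_smul, hm, smul_inv_smul]
  · rw [mul_smul, mul_smul, sc, h2, hs, hp2]
  · rw [mul_smul, mul_smul, sd, h3, hs, hp1]

/-- vanishing of one term -/
theorem sum_ee_zero {G X Y : Type} [Group G] [Fintype G] [MulAction G X] [MulAction G Y]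
    (a b : X) (c d : Y) (h : G) (hX : ∀ x : X, h • x = x) (h1 : h • c = d) (h2 : h • d = c) :
    ∑ g : G, ee g a b * ee g c d = 0 := by
  have key : ∑ g : G, ee g a b * ee g c d = - ∑ g : G, ee g a b * ee g c d := by
    conv_lhs => rw [sum_tr (fun g => ee g a b * ee g c d) h]
    rw [← Finset.sum_neg_distrib]
    apply Finset.sum_congr rfl
    intro g _
    have f1 : ∀ x y : X, dl (h * g) x y = dl g x y := by
      intro x y
      have := dl_mul h g x y
      rwa [hX] at this
    have f2 : ∀ x : Y, dl (h * g) x c = dl g x d := by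
      intro x
      have := dl_mul h g x d
      rwa [h2] at this
    have f3 : ∀ x : Y, dl (h * g) x d = dl g x c := by
      intro x
      have := dl_mul h g x c
      rwa [h1] at this
    unfold ee
    rw [f1, f1, f1, f1, f2, f2, f3, f3]
    ring
  linarith

theorem hG5 : StG5 := by
  intro G _ _ X Y _ _ _ _ hX hY hsX hsY hne
  have : Fintype G := Fintype.ofFinite G
  have hz : ∀ (a b : X) (c d : Y), ∑ g : G, ee g a b * ee g c d = 0 := by
    intro a b c d
    by_cases hab : a = b
    · subst hab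
      simp [ee_self]
    by_cases hcd : c = d
    · subst hcd
      simp [ee_self]
    obtain ⟨g₀, hg⟩ := hne
    by_cases h0 : ∀ x : X, g₀ • x = x
    · have h1 : ¬ ∀ y : Y, g₀ • y = y := fun h => hg ⟨fun _ => h, fun _ => h0⟩
      obtain ⟨h, e1, e2, e3⟩ := exists_swap (X := X) hY hsY g₀ h0 h1 c d hcd
      exact sum_ee_zero a b c d h e1 e2 e3
    · have h1 : ∀ y : Y, g₀ • y = y := by
        by_contra hc
        exact hg ⟨fun h => absurd h h0, fun h => absurd h hc⟩
      obtain ⟨h, e1, e2, e3⟩ := exists_swap (X := Y) hX hsX g₀ h1 h0 a b hab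
      have h2 := sum_ee_zero c d a b h e1 e2 e3
      rw [← h2]
      apply Finset.sum_congr rfl
      intro g _
      ring
  rw [avg_eq]
  have h1 : ∑ g : G, la (fx X) g * la (fx Y) g = 0 := by
    have h2 : ∀ g : G, la (fx X) g * la (fx Y) g =
        (∑ a : X, ∑ b : X, ∑ c : Y, ∑ d : Y, ee g a b * ee g c d) / 4 := by
      intro g
      have h3 : ∑ a : X, ∑ b : X, ∑ c : Y, ∑ d : Y, ee g a b * ee g c d =
          (∑ a : X, ∑ b : X, ee g a b) * (∑ c : Y, ∑ d : Y, ee g c d) := by
        rw [Finset.sum_mul]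
        apply Finset.sum_congr rfl
        intro x _
        rw [Finset.sum_mul]
        apply Finset.sum_congr rfl
        intro y _
        rw [Finset.mul_sum]
        apply Finset.sum_congr rfl
        intro c _
        rw [Finset.mul_sum]
      rw [h3, la_eq, la_eq]
      ring
    rw [Finset.sum_congr rfl (fun g _ => h2 g), ← Finset.sum_div]
    have h4 : ∑ g : G, ∑ a : X, ∑ b : X, ∑ c : Y, ∑ d : Y, ee g a b * ee g c d = 0 := by
      rw [Finset.sum_comm]
      apply Finset.sum_eq_zero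
      intro a _
      rw [Finset.sum_comm]
      apply Finset.sum_eq_zero
      intro b _
      rw [Finset.sum_comm]
      apply Finset.sum_eq_zero
      intro c _
      rw [Finset.sum_comm]
      apply Finset.sum_eq_zero
      intro d _
      exact hz a b c d
    rw [h4, zero_div]
  rw [h1, zero_div]

end

end Pool.Agent.Helper31.TN
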